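import Pool.Agent.H43.Boot

set_option autoImplicit false
open Pool.Agent.H43.Boot

namespace Pool.Agent.Results.MP_38c1f8_pr.NoInvasion

/-- A connected infinite 4-regular graph, quasi-isometric to the square grid, with no fortress,
on which 2-neighbour bootstrap invasion has probability less than one for some `0 < p < 1`. -/
theorem result :
    ∃ (V : Type) (G : SimpleGraph V), Infinite V ∧ G.Connected ∧
      (∀ v, (G.neighborSet v).ncard = 4) ∧ QuasiIsometricToGrid G ∧
      (∀ S : Finset V, ¬ IsFortress G S) ∧
      ∃ p : unitInterval, 0 < (p : ℝ) ∧ (p : ℝ) < 1 ∧ bernoulliProduct V p (invasion G) < 1 :=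
  ⟨ℤ × ℤ, G, inferInstance, connected, regular, qi, no_fortress, Pool.Agent.H43.Stav.p0,
    by norm_num [Pool.Agent.H43.Stav.p0], by norm_num [Pool.Agent.H43.Stav.p0], meas_lt⟩

end Pool.Agent.Results.MP_38c1f8_pr.NoInvasion
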